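import Mathlib
import Pool.Agent.Q72.Psh.Defs

/-!
# Hyperconvex domains and pluricomplex Green functions
-/

set_option autoImplicit false

open Metric Set Filter Topology

namespace Q72.Green

open Q72.Psh

variable {E : Type*} [NormedAddCommGroup E] [NormedSpace ℂ E]

/-- Bounded hyperconvex domains: there is a negative continuous plurisubharmonic exhaustion
function. -/
def IsHyperconvex (Ω : Set E) : Prop :=
  IsOpen Ω ∧ IsConnected Ω ∧ Bornology.IsBounded Ω ∧
  ∃ ρ : E → ℝ, ContinuousOn ρ Ω ∧ IsPSH Ω (fun z => ((ρ z : ℝ) : EReal)) ∧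
    (∀ z ∈ Ω, ρ z < 0) ∧ ∀ c < 0, IsCompact {z ∈ Ω | ρ z ≤ c}

/-- The competitors in the definition of the Green function: negative plurisubharmonic functions
with `u w ≤ log |w - a| + O(1)` as `w → a` for each pole `a`. -/
def greenFamily (Ω S : Set E) : Set (E → EReal) :=
  {u | IsPSH Ω u ∧ (∀ z ∈ Ω, u z < 0) ∧
    ∀ a ∈ S, ∃ C : ℝ, ∀ᶠ w in 𝓝[≠] a, u w ≤ ((Real.log ‖w - a‖ + C : ℝ) : EReal)}

/-- The pluricomplex Green function of `Ω` with poles at the points of `S`. -/
noncomputable def green (Ω S : Set E) (z : E) : EReal := ⨆ u ∈ greenFamily Ω S, u z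

end Q72.Green
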