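import Mathlib
import Pool.Agent.Q72.Psh.Basic
import Pool.Agent.Q72.Green.Defs

/-!
# The logarithmic barrier
-/

set_option autoImplicit false

open Metric Set Filter Topology

namespace Q72.Green

open Q72.Psh

/-- the extended logarithm -/
noncomputable def Lg (t : ℝ) : EReal := if 0 < t then ((Real.log t : ℝ) : EReal) else ⊥

lemma Lg_le {t b : ℝ} : Lg t ≤ (b : EReal) ↔ t ≤ Real.exp b := by
  unfold Lg
  split_ifs with h
  · rw [EReal.coe_le_coe_iff, Real.log_le_iff_le_exp h]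
  · simp only [bot_le, true_iff]
    push Not at h
    exact h.trans (Real.exp_pos b).le

lemma Lg_lt {t b : ℝ} : Lg t < (b : EReal) ↔ t < Real.exp b := by
  unfold Lg
  split_ifs with h
  · rw [EReal.coe_lt_coe_iff, Real.log_lt_iff_lt_exp h]
  · simp only [EReal.bot_lt_coe, true_iff]
    push Not at h
    exact lt_of_le_of_lt h (Real.exp_pos b)

lemma Lg_ne_top (t : ℝ) : Lg t ≠ ⊤ := by
  unfold Lg
  split_ifs
  · exact EReal.coe_ne_top _
  · exact bot_ne_top

lemma Lg_pos {t : ℝ} (h : 0 < t) : Lg t = ((Real.log t : ℝ) : EReal) := by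
  unfold Lg; rw [if_pos h]

variable {E : Type*} [NormedAddCommGroup E] [NormedSpace ℂ E] {Ω : Set E}

/-- the sub-mean value inequality for `log ∏ ‖F - a‖ / R` -/
lemma log_prod {φ : ℂ → E} (hφ : AnalyticOnNhd ℂ φ (closedBall 0 1)) (S : Finset E) {R : ℝ}
    (hR : 0 < R) {h : ℂ → ℝ} (hh : ContinuousOn h (sphere 0 1))
    (hle : ∀ ζ ∈ sphere (0 : ℂ) 1, ∏ a ∈ S, ‖φ ζ - a‖ / R ≤ Real.exp (h ζ)) :
    ∏ a ∈ S, ‖φ 0 - a‖ / R ≤ Real.exp (Real.circleAverage h 0 1) := by
  classical
  by_cases h0 : ∃ a ∈ S, φ 0 = a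
  · obtain ⟨a, ha, hφa⟩ := h0
    rw [Finset.prod_eq_zero ha (by rw [hφa, sub_self, norm_zero, zero_div])]
    exact (Real.exp_pos _).le
  push Not at h0
  have hg : ∀ a : E, ∃ g : StrongDual ℂ E, a ∈ S → ‖g‖ = 1 ∧ g (φ 0 - a) = ‖φ 0 - a‖ := by
    intro a
    by_cases ha : a ∈ S
    · obtain ⟨g, hg1, hg2⟩ := exists_dual_vector ℂ (φ 0 - a)
        (norm_ne_zero_iff.2 (sub_ne_zero.2 (h0 a ha)))
      exact ⟨g, fun _ => ⟨hg1, hg2⟩⟩
    · exact ⟨0, fun h => absurd h ha⟩
  choose g hg using hg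
  set f : ℂ → ℂ := fun ζ => ∏ a ∈ S, g a (φ ζ - a) / R with hf
  have hfn : ∀ ζ, ‖f ζ‖ ≤ ∏ a ∈ S, ‖φ ζ - a‖ / R := by
    intro ζ
    simp only [hf]
    rw [norm_prod]
    apply Finset.prod_le_prod
    · intro a _; positivity
    · intro a ha
      rw [norm_div, Complex.norm_real, Real.norm_of_nonneg hR.le]
      gcongr
      have := (g a).le_opNorm (φ ζ - a)
      rwa [(hg a ha).1, one_mul] at this
  have hf0 : ‖f 0‖ = ∏ a ∈ S, ‖φ 0 - a‖ / R := by
    simp only [hf]
    rw [norm_prod]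
    apply Finset.prod_congr rfl
    intro a ha
    rw [norm_div, Complex.norm_real, Real.norm_of_nonneg hR.le, (hg a ha).2]
    simp
  rw [← hf0]
  -- up to `δ`
  have key : ∀ δ : ℝ, 0 < δ → ‖f 0‖ ≤ Real.exp (Real.circleAverage h 0 1 + 2 * δ) := by
    intro δ hδ
    obtain ⟨p, hp, hph⟩ := approx hh hδ
    have hpavg : (p 0).re ≤ Real.circleAverage h 0 1 + δ := by
      rw [← avg_re hp]
      apply avg_le_add (by have := hp.continuous; fun_prop) hh
      intro ζ hζ
      have := abs_lt.1 (hph ζ hζ)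
      linarith [this.1]
    have hfd : ∀ ζ ∈ closedBall (0 : ℂ) 1, DifferentiableAt ℂ f ζ := by
      intro ζ hζ
      have h1 : DifferentiableAt ℂ φ ζ := (hφ ζ hζ).differentiableAt
      have h2 : ∀ s : Finset E, DifferentiableAt ℂ (fun ζ => ∏ a ∈ s, g a (φ ζ - a) / R) ζ := by
        intro s
        induction s using Finset.induction_on with
        | empty => simp only [Finset.prod_empty]; exact differentiableAt_const 1
        | insert a t ha ih =>
          simp only [Finset.prod_insert ha]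
          apply DifferentiableAt.fun_mul _ ih
          simp only [div_eq_mul_inv]
          apply DifferentiableAt.mul_const
          exact ((g a).differentiableAt).comp ζ (h1.sub_const a)
      exact h2 S
    have hF : DifferentiableOn ℂ (fun ζ => f ζ * Complex.exp (-p ζ)) (closedBall 0 1) := by
      intro ζ hζ
      exact ((hfd ζ hζ).fun_mul (hp ζ).fun_neg.cexp).differentiableWithinAt
    have hFc : DiffContOnCl ℂ (fun ζ => f ζ * Complex.exp (-p ζ)) (ball 0 1) := by
      apply DifferentiableOn.diffContOnCl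
      rw [closure_ball (0 : ℂ) one_ne_zero]
      exact hF
    have h1 := Complex.norm_le_of_forall_mem_frontier_norm_le (C := Real.exp δ) isBounded_ball
      hFc (fun ζ hζ => by
        rw [frontier_ball (0 : ℂ) one_ne_zero] at hζ
        rw [norm_mul, Complex.norm_exp, Complex.neg_re]
        have h2 := (hfn ζ).trans (hle ζ hζ)
        have h3 := abs_lt.1 (hph ζ hζ)
        calc ‖f ζ‖ * Real.exp (-(p ζ).re) ≤ Real.exp (h ζ) * Real.exp (-(p ζ).re) := by gcongr
          _ = Real.exp (h ζ - (p ζ).re) := by rw [← Real.exp_add]; ring_nf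
          _ ≤ Real.exp δ := by rw [Real.exp_le_exp]; linarith [h3.2])
      (z := 0) (subset_closure (by simp))
    rw [norm_mul, Complex.norm_exp, Complex.neg_re] at h1
    calc ‖f 0‖ = ‖f 0‖ * Real.exp (-(p 0).re) * Real.exp (p 0).re := by
          rw [mul_assoc, ← Real.exp_add, neg_add_cancel, Real.exp_zero, mul_one]
      _ ≤ Real.exp δ * Real.exp (p 0).re := by gcongr
      _ = Real.exp (δ + (p 0).re) := by rw [Real.exp_add]
      _ ≤ Real.exp (Real.circleAverage h 0 1 + 2 * δ) := by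
          rw [Real.exp_le_exp]; linarith
  have hlim : Tendsto (fun δ : ℝ => Real.exp (Real.circleAverage h 0 1 + 2 * δ)) (𝓝[>] 0)
      (𝓝 (Real.exp (Real.circleAverage h 0 1 + 2 * 0))) := by
    apply Tendsto.mono_left _ nhdsWithin_le_nhds
    have : Continuous fun δ : ℝ => Real.exp (Real.circleAverage h 0 1 + 2 * δ) := by fun_prop
    exact this.tendsto 0
  rw [mul_zero, add_zero] at hlim
  exact ge_of_tendsto hlim (eventually_mem_nhdsWithin.mono fun δ hδ => key δ hδ)

/-- `log ∏ ‖w - a‖ / R` is plurisubharmonic -/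
lemma psh_log_prod (S : Finset E) {R : ℝ} (hR : 0 < R) :
    IsPSH univ (fun w : E => Lg (∏ a ∈ S, ‖w - a‖ / R)) := by
  have hc : Continuous fun w : E => ∏ a ∈ S, ‖w - a‖ / R := by fun_prop
  refine ⟨?_, fun x _ => Lg_ne_top _, ?_⟩
  · intro x _ y hy
    beta_reduce at hy ⊢
    rw [nhdsWithin_univ]
    induction y with
    | bot => exact absurd hy (by simp)
    | top => exact Eventually.of_forall fun w => lt_top_iff_ne_top.2 (Lg_ne_top _)
    | coe y =>
      rw [Lg_lt] at hy
      filter_upwards [hc.continuousAt.eventually_lt continuousAt_const hy] with w hw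
      rw [Lg_lt]; exact hw
  · intro φ hφ _ h hh hle
    beta_reduce at hle ⊢
    rw [Lg_le]
    apply log_prod hφ S hR hh
    intro ζ hζ
    exact Lg_le.1 (hle ζ hζ)

lemma isPSH_congr {u v : E → EReal} {O : Set E} (hu : IsPSH O u) (h : ∀ x ∈ O, v x = u x) :
    IsPSH O v := by
  refine ⟨?_, fun x hx => by rw [h x hx]; exact hu.2.1 x hx, ?_⟩
  · intro x hx y hy
    rw [h x hx] at hy
    filter_upwards [hu.1 x hx y hy, self_mem_nhdsWithin] with w hw hwO
    rw [h w hwO]; exact hw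
  · intro φ hφ hm k hk hle
    have h0 : φ 0 ∈ O := hm (by simp)
    rw [h _ h0]
    apply hu.2.2 φ hφ hm k hk
    intro ζ hζ
    rw [← h _ (hm (sphere_subset_closedBall hζ))]
    exact hle ζ hζ

open Classical in
/-- the barrier -/
noncomputable def barrier (S : Finset E) (r R A : ℝ) (ρ : E → ℝ) (w : E) : EReal :=
  if ‖w‖ < 2 * r then Lg (∏ a ∈ S, ‖w - a‖ / R)
  else max (Lg (∏ a ∈ S, ‖w - a‖ / R)) ((A * ρ w : ℝ) : EReal)

variable {r R A : ℝ} {ρ : E → ℝ} {S : Finset E}

lemma barrier_le_prod (w : E) : Lg (∏ a ∈ S, ‖w - a‖ / R) ≤ barrier S r R A ρ w := by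
  unfold barrier
  split_ifs
  · exact le_rfl
  · exact le_max_left _ _

lemma rho_le_barrier {w : E} (hw : 2 * r ≤ ‖w‖) :
    ((A * ρ w : ℝ) : EReal) ≤ barrier S r R A ρ w := by
  unfold barrier
  rw [if_neg (by linarith)]
  exact le_max_right _ _

/-- far from the poles the product is bounded below -/
lemma prod_ge {N : ℕ} (hS : S.card = N) (hr : 0 < r) (hR : 0 < R) (hS2 : ∀ a ∈ S, ‖a‖ < r / 2)
    {w : E} (hw : r ≤ ‖w‖) : (r / (2 * R)) ^ N ≤ ∏ a ∈ S, ‖w - a‖ / R := by
  rw [← hS, ← Finset.prod_const]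
  apply Finset.prod_le_prod
  · intro a _; positivity
  · intro a ha
    have h1 := norm_sub_norm_le w a
    have h2 := hS2 a ha
    rw [div_le_div_iff₀ (by positivity) hR]
    nlinarith

/-- **the barrier belongs to the family** -/
theorem barrier_mem (hΩ : IsOpen Ω) (hr : 0 < r) (hrΩ : closedBall (0 : E) (2 * r) ⊆ Ω)
    (hR : 0 < R) (hRΩ : ∀ x ∈ Ω, ∀ y ∈ Ω, ‖x - y‖ < R) (hρ : IsPSH Ω (fun z => ((ρ z : ℝ) : EReal)))
    (hρ0 : ∀ z ∈ Ω, ρ z < 0) (hA : 0 < A) {N : ℕ} (hN : 0 < N)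
    (hAρ : ∀ z ∈ closedBall (0 : E) (2 * r), A * ρ z ≤ Real.log ((r / (2 * R)) ^ N))
    (hS : S.card = N) (hS2 : ∀ a ∈ S, ‖a‖ < r / 2) :
    barrier S r R A ρ ∈ greenFamily Ω (S : Set E) := by
  classical
  have hSΩ : ∀ a ∈ S, a ∈ Ω := by
    intro a ha
    apply hrΩ
    rw [mem_closedBall, dist_zero_right]
    linarith [hS2 a ha]
  have hneg : ∀ w ∈ Ω, Lg (∏ a ∈ S, ‖w - a‖ / R) < 0 := by
    intro w hw
    rw [show (0 : EReal) = ((0 : ℝ) : EReal) from rfl, Lg_lt, Real.exp_zero]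
    have hne : S.Nonempty := by rw [← Finset.card_pos, hS]; exact hN
    obtain ⟨b, hb⟩ := hne
    rw [← Finset.mul_prod_erase S _ hb]
    have h1 : ‖w - b‖ / R < 1 := by rw [div_lt_one hR]; exact hRΩ w hw b (hSΩ b hb)
    have h2 : ∏ a ∈ S.erase b, ‖w - a‖ / R ≤ 1 := by
      apply Finset.prod_le_one
      · intro a _; positivity
      · intro a ha
        rw [div_le_one hR]
        exact (hRΩ w hw a (hSΩ a (Finset.mem_of_mem_erase ha))).le
    have h3 : 0 ≤ ∏ a ∈ S.erase b, ‖w - a‖ / R := by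
      apply Finset.prod_nonneg; intro a _; positivity
    have h4 : 0 ≤ ‖w - b‖ / R := by positivity
    nlinarith
  refine ⟨?_, ?_, ?_⟩
  · -- psh
    apply IsPSH.of_local
    intro x hx
    by_cases hxr : ‖x‖ < 2 * r
    · refine ⟨ball 0 (2 * r), isOpen_ball, by simpa using hxr, ?_⟩
      apply isPSH_congr ((psh_log_prod S hR).mono (subset_univ _))
      intro w hw
      rw [mem_ball, dist_zero_right] at hw
      unfold barrier
      rw [if_pos hw]
    · push Not at hxr
      refine ⟨Ω ∩ {w | r < ‖w‖}, hΩ.inter (isOpen_lt continuous_const continuous_norm),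
        ⟨hx, (show r < ‖x‖ by linarith)⟩, ?_⟩
      apply isPSH_congr (isPSH_max ((psh_log_prod S hR).mono (subset_univ _))
        ((hρ.const_mul_real hA).mono inter_subset_left))
      rintro w ⟨hwΩ, hw⟩
      have hw' : r < ‖w‖ := hw
      unfold barrier
      split_ifs with h1
      · symm
        apply max_eq_left
        have h2 := prod_ge hS hr hR hS2 hw'.le
        have h3 : 0 < (r / (2 * R)) ^ N := by positivity
        rw [Lg_pos (lt_of_lt_of_le h3 h2), EReal.coe_le_coe_iff]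
        refine (hAρ w ?_).trans (Real.log_le_log h3 h2)
        rw [mem_closedBall, dist_zero_right]
        exact h1.le
      · rfl
  · intro z hz
    unfold barrier
    split_ifs
    · exact hneg z hz
    · apply max_lt (hneg z hz)
      rw [show (0 : EReal) = ((0 : ℝ) : EReal) from rfl, EReal.coe_lt_coe_iff]
      have := hρ0 z hz
      nlinarith
  · intro b hb
    have hb' : b ∈ S := hb
    refine ⟨-Real.log R, ?_⟩
    have h1 : ∀ᶠ w in 𝓝 b, ‖w‖ < 2 * r :=
      continuous_norm.continuousAt.eventually_lt continuousAt_const (by linarith [hS2 b hb'])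
    have h2 : ∀ᶠ w in 𝓝 b, w ∈ Ω := hΩ.mem_nhds (hSΩ b hb')
    filter_upwards [h1.filter_mono nhdsWithin_le_nhds, h2.filter_mono nhdsWithin_le_nhds,
      self_mem_nhdsWithin] with w hw hwΩ hwb
    unfold barrier
    rw [if_pos hw, Lg_le, Real.exp_add, Real.exp_neg, Real.exp_log hR,
      Real.exp_log (norm_pos_iff.2 (sub_ne_zero.2 hwb)), ← Finset.mul_prod_erase S _ hb',
      ← div_eq_mul_inv]
    have h3 : ∏ a ∈ S.erase b, ‖w - a‖ / R ≤ 1 := by
      apply Finset.prod_le_one
      · intro a _; positivity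
      · intro a ha
        rw [div_le_one hR]
        exact (hRΩ w hwΩ a (hSΩ a (Finset.mem_of_mem_erase ha))).le
    have h4 : 0 ≤ ‖w - b‖ / R := by positivity
    nlinarith

end Q72.Green
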