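import Mathlib
import Pool.Agent.Q72.Green.Barrier

/-!
# Uniform equicontinuity of the Green functions away from the origin
-/

set_option autoImplicit false

open Metric Set Filter Topology

namespace Q72.Green

open Q72.Psh

variable {E : Type*} [NormedAddCommGroup E] [NormedSpace ℂ E] [FiniteDimensional ℂ E] {Ω : Set E}

/-- the polynomial vanishing on the poles -/
noncomputable def qq (g : StrongDual ℂ E) (m : ℝ) (S : Finset E) (w : E) : ℂ :=
  ∏ a ∈ S, (g (w - a) / m)

lemma qq_diff (g : StrongDual ℂ E) (m : ℝ) (S : Finset E) : Differentiable ℂ (qq g m S) := by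
  classical
  unfold qq
  induction S using Finset.induction_on with
  | empty => simp only [Finset.prod_empty]; exact differentiable_const 1
  | insert a t ha ih =>
    simp only [Finset.prod_insert ha]
    apply Differentiable.fun_mul _ ih
    simp only [div_eq_mul_inv]
    apply Differentiable.mul_const
    exact g.differentiable.comp (by fun_prop : Differentiable ℂ fun w : E => w - a)

/-- **Uniform one-sided estimate.** -/
theorem green_le_add (hΩ : IsHyperconvex Ω) (h0 : (0 : E) ∈ Ω) {N : ℕ} (hN : 0 < N) {x0 : E}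
    (hx0 : x0 ∈ Ω) (hx0' : x0 ≠ 0) {η : ℝ} (hη : 0 < η) :
    ∃ δ > 0, ∃ τ > 0, ball x0 δ ⊆ Ω ∧ ∀ S : Finset E, S.card = N → (S : Set E) ⊆ ball 0 τ →
      (∀ x ∈ ball x0 δ, x ∉ S ∧ ⊥ < green Ω S x) ∧
      ∀ x ∈ ball x0 δ, ∀ y ∈ ball x0 δ, green Ω S y ≤ green Ω S x + ((η : ℝ) : EReal) := by
  classical
  obtain ⟨hop, _, hbd, ρ, hρc, hρ, hρ0, hρK⟩ := hΩ
  have hproper : ProperSpace E := FiniteDimensional.proper_rclike ℂ E
  have hcomplete : CompleteSpace E := FiniteDimensional.complete ℂ E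
  -- radius
  obtain ⟨r1, hr1, hr1Ω⟩ := Metric.isOpen_iff.1 hop 0 h0
  set r : ℝ := r1 / 4 with hr
  have hr0 : 0 < r := by positivity
  have hrΩ : closedBall (0 : E) (2 * r) ⊆ Ω := by
    refine subset_trans ?_ hr1Ω
    apply closedBall_subset_ball
    rw [hr]; linarith
  -- diameter
  obtain ⟨R0, hR0⟩ := hbd.subset_closedBall (0 : E)
  set R : ℝ := max (2 * R0 + 1) (max 1 (2 * r)) with hR
  have hR1 : 1 ≤ R := (le_max_left _ _).trans (le_max_right _ _)
  have hRpos : 0 < R := by linarith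
  have hRr : 2 * r ≤ R := (le_max_right _ _).trans (le_max_right _ _)
  have hRΩ : ∀ x ∈ Ω, ∀ y ∈ Ω, ‖x - y‖ < R := by
    intro x hx y hy
    have h1 := hR0 hx
    have h2 := hR0 hy
    rw [mem_closedBall, dist_zero_right] at h1 h2
    have h3 : 2 * R0 + 1 ≤ R := le_max_left _ _
    have := norm_sub_le x y
    linarith
  -- the constant A
  have hc0 : ∃ c0 > 0, ∀ z ∈ closedBall (0 : E) (2 * r), ρ z ≤ -c0 := by
    obtain ⟨zm, hzm, hmax⟩ := (isCompact_closedBall (0 : E) (2 * r)).exists_isMaxOn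
      ⟨0, by simp [hr0.le]⟩ (hρc.mono hrΩ)
    exact ⟨-ρ zm, by linarith [hρ0 zm (hrΩ hzm)], fun z hz => by
      have : ρ z ≤ ρ zm := hmax hz
      linarith⟩
  obtain ⟨c0, hc00, hc0⟩ := hc0
  set L : ℝ := Real.log ((r / (2 * R)) ^ N) with hL
  have hLneg : L < 0 := by
    rw [hL]
    apply Real.log_neg (by positivity)
    apply pow_lt_one₀ (by positivity) _ hN.ne'
    rw [div_lt_one (by positivity)]
    linarith
  set A : ℝ := -L / c0 with hA
  have hApos : 0 < A := by rw [hA]; apply div_pos <;> linarith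
  have hAρ : ∀ z ∈ closedBall (0 : E) (2 * r), A * ρ z ≤ L := by
    intro z hz
    have h1 := hc0 z hz
    calc A * ρ z ≤ A * (-c0) := by gcongr
      _ = L := by rw [hA]; field_simp
  -- the compact set and its neighbourhoods
  set K : Set E := ({z ∈ Ω | ρ z ≤ -(η / A)} ∪ closedBall (0 : E) (2 * r)) ∪ {x0} with hK
  have hKc : IsCompact K := by
    apply IsCompact.union _ isCompact_singleton
    apply IsCompact.union (hρK _ _) (isCompact_closedBall _ _)
    have : 0 < η / A := by positivity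
    linarith
  have hKΩ : K ⊆ Ω := by
    rintro z ((hz | hz) | hz)
    · exact hz.1
    · exact hrΩ hz
    · rw [mem_singleton_iff.1 hz]; exact hx0
  obtain ⟨s2, hs2, hs2Ω⟩ := hKc.exists_thickening_subset_open hop hKΩ
  set s : ℝ := s2 / 2 with hs
  have hs0 : 0 < s := by positivity
  have hx0n : 0 < ‖x0‖ := norm_pos_iff.2 hx0'
  have hx0R : ‖x0‖ < R := by simpa using hRΩ x0 hx0 0 h0
  set Q : ℝ := (R / ‖x0‖) ^ N with hQ
  have hRx : 1 < R / ‖x0‖ := by rw [one_lt_div hx0n]; exact hx0R
  have hQ1 : 1 ≤ Q := one_le_pow₀ hRx.le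
  have h2N : (0 : ℝ) < 2 ^ N := by positivity
  set δ : ℝ := min (min s (‖x0‖ / 4)) (min (s / (4 * Q * 2 ^ N)) (1 / (8 * Q * 2 ^ N))) with hδ
  have hδ0 : 0 < δ := by positivity
  have hδs : δ ≤ s := (min_le_left _ _).trans (min_le_left _ _)
  have hδx : δ ≤ ‖x0‖ / 4 := (min_le_left _ _).trans (min_le_right _ _)
  have hδ1 : Q * 2 ^ N * (2 * δ) ≤ s / 2 := by
    have : δ ≤ s / (4 * Q * 2 ^ N) := (min_le_right _ _).trans (min_le_left _ _)
    calc Q * 2 ^ N * (2 * δ) ≤ Q * 2 ^ N * (2 * (s / (4 * Q * 2 ^ N))) := by gcongr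
      _ = s / 2 := by field_simp; ring
  have hδ2 : Q * 2 ^ N * (2 * δ) ≤ 1 / 4 := by
    have : δ ≤ 1 / (8 * Q * 2 ^ N) := (min_le_right _ _).trans (min_le_right _ _)
    calc Q * 2 ^ N * (2 * δ) ≤ Q * 2 ^ N * (2 * (1 / (8 * Q * 2 ^ N))) := by gcongr
      _ = 1 / 4 := by field_simp; ring
  set τ : ℝ := min (r / 2) (‖x0‖ / 4) with hτ
  have hτ0 : 0 < τ := by positivity
  have hx0K : x0 ∈ K := Or.inr rfl
  have hballO : ball x0 δ ⊆ thickening s K := by
    intro x hx
    rw [mem_thickening_iff]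
    exact ⟨x0, hx0K, lt_of_lt_of_le hx hδs⟩
  have hOΩ : thickening s K ⊆ Ω := (thickening_mono (by rw [hs]; linarith) K).trans hs2Ω
  obtain ⟨g, hg1, hg2⟩ := exists_dual_vector ℂ x0 (norm_ne_zero_iff.2 hx0')
  have hgn : ∀ w : E, ‖g w / (‖x0‖ : ℂ)‖ ≤ ‖w‖ / ‖x0‖ := by
    intro w
    rw [norm_div, Complex.norm_real, norm_norm]
    gcongr
    have := g.le_opNorm w
    rwa [hg1, one_mul] at this
  refine ⟨δ, hδ0, τ, hτ0, hballO.trans hOΩ, fun S hS hSτ => ?_⟩
  have hSτ' : ∀ a ∈ S, ‖a‖ < τ := fun a ha => by simpa using hSτ ha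
  have hS2 : ∀ a ∈ S, ‖a‖ < r / 2 := fun a ha => lt_of_lt_of_le (hSτ' a ha) (min_le_left _ _)
  have hSx : ∀ a ∈ S, ‖a‖ < ‖x0‖ / 4 :=
    fun a ha => lt_of_lt_of_le (hSτ' a ha) (min_le_right _ _)
  have hSΩ : ∀ a ∈ S, a ∈ Ω := by
    intro a ha
    apply hrΩ
    rw [mem_closedBall, dist_zero_right]
    linarith [hS2 a ha]
  have hbar := barrier_mem (ρ := ρ) hop hr0 hrΩ hRpos hRΩ hρ hρ0 hApos hN hAρ hS hS2
  set W := barrier S r R A ρ with hW
  have hWgreen : ∀ z, W z ≤ green Ω S z := fun z => le_iSup₂ (f := fun u _ => u z) W hbar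
  constructor
  · intro x hx
    have hxS : x ∉ S := by
      intro hxS
      have h1 := hSx x hxS
      rw [mem_ball, dist_eq_norm] at hx
      have h2 := norm_sub_norm_le x0 x
      rw [norm_sub_rev] at h2
      linarith
    refine ⟨hxS, lt_of_lt_of_le ?_ (hWgreen x)⟩
    refine lt_of_lt_of_le ?_ (barrier_le_prod x)
    rw [Lg_pos]
    · exact EReal.bot_lt_coe _
    · apply Finset.prod_pos
      intro a ha
      apply div_pos _ hRpos
      rw [norm_pos_iff, sub_ne_zero]
      rintro rfl
      exact hxS ha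
  intro x hx y hy
  have hxΩ : x ∈ Ω := hOΩ (hballO hx)
  rw [mem_ball, dist_eq_norm] at hx hy
  have hxy : ‖y - x‖ ≤ 2 * δ := by
    have : y - x = (y - x0) - (x - x0) := by abel
    rw [this]
    refine (norm_sub_le _ _).trans ?_
    linarith
  set m : ℝ := ‖x0‖ with hm
  set q : E → ℂ := qq g m S with hq
  -- bounds for q
  have hqle : ∀ w ∈ Ω, ‖q w‖ ≤ Q := by
    intro w hw
    simp only [hq, qq]
    rw [norm_prod, hQ, ← hS, ← Finset.prod_const]
    apply Finset.prod_le_prod
    · intro a _; positivity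
    · intro a ha
      refine (hgn _).trans ?_
      gcongr
      exact (hRΩ w hw a (hSΩ a ha)).le
  have hqpole : ∀ b ∈ S, ∀ w ∈ Ω, ‖q w‖ ≤ Q * ‖w - b‖ := by
    intro b hb w hw
    simp only [hq, qq]
    rw [norm_prod, ← Finset.mul_prod_erase S _ hb]
    have h1 : ∏ a ∈ S.erase b, ‖g (w - a) / (m : ℂ)‖ ≤ (R / m) ^ (N - 1) := by
      have hcard : (S.erase b).card = N - 1 := by rw [Finset.card_erase_of_mem hb, hS]
      rw [← hcard, ← Finset.prod_const]
      apply Finset.prod_le_prod
      · intro a _; positivity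
      · intro a ha
        refine (hgn _).trans ?_
        gcongr
        exact (hRΩ w hw a (hSΩ a (Finset.mem_of_mem_erase ha))).le
    have h2 := hgn (w - b)
    calc ‖g (w - b) / (m : ℂ)‖ * ∏ a ∈ S.erase b, ‖g (w - a) / (m : ℂ)‖
        ≤ (‖w - b‖ / m) * (R / m) ^ (N - 1) := by
          apply mul_le_mul h2 h1 _ (by positivity)
          apply Finset.prod_nonneg; intro a _; positivity
      _ ≤ (‖w - b‖ * (R / m)) * (R / m) ^ (N - 1) := by
          gcongr
          rw [div_eq_mul_inv]
          gcongr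
          rw [inv_eq_one_div]
          gcongr
      _ = Q * ‖w - b‖ := by
          rw [hQ]
          have : (R / m) ^ N = (R / m) * (R / m) ^ (N - 1) := by
            rw [← pow_succ']; congr 1; omega
          rw [this]; ring
  have hqx : 1 / 2 ^ N ≤ ‖q x‖ := by
    simp only [hq, qq]
    rw [norm_prod]
    have h1 : (1 : ℝ) / 2 ^ N = ∏ _a ∈ S, (1 / 2 : ℝ) := by
      rw [Finset.prod_const, hS, div_pow, one_pow]
    rw [h1]
    apply Finset.prod_le_prod
    · intro a _; norm_num
    · intro a ha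
      have e1 : g (x - a) / (m : ℂ) = 1 + g (x - x0 - a) / (m : ℂ) := by
        have hmc : (m : ℂ) ≠ 0 := by exact_mod_cast hx0n.ne'
        have e2 : g (x - a) = g x0 + g (x - x0 - a) := by
          rw [← map_add]; congr 1; abel
        have e3 : g x0 = (m : ℂ) := hg2
        rw [e2, e3, add_div, div_self hmc]
      have h2 := hgn (x - x0 - a)
      have h3 : ‖x - x0 - a‖ ≤ m / 2 := by
        refine (norm_sub_le _ _).trans ?_
        have := hSx a ha
        linarith
      have h4 : ‖x - x0 - a‖ / m ≤ 1 / 2 := by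
        rw [div_le_iff₀ hx0n]; linarith
      rw [e1]
      have h5 := norm_sub_norm_le (1 : ℂ) (-(g (x - x0 - a) / (m : ℂ)))
      rw [norm_one, norm_neg, sub_neg_eq_add] at h5
      linarith
  have hqx0 : 0 < ‖q x‖ := lt_of_lt_of_le (by positivity) hqx
  have hqxne : q x ≠ 0 := norm_pos_iff.1 hqx0
  have hqinv : ∀ w : E, ‖q w / q x‖ ≤ ‖q w‖ * 2 ^ N := by
    intro w
    rw [norm_div, div_le_iff₀ hqx0]
    have : (1 : ℝ) ≤ 2 ^ N * ‖q x‖ := by
      rw [div_le_iff₀ h2N] at hqx
      linarith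
    calc ‖q w‖ = ‖q w‖ * 1 := by ring
      _ ≤ ‖q w‖ * (2 ^ N * ‖q x‖) := by gcongr
      _ = ‖q w‖ * 2 ^ N * ‖q x‖ := by ring
  -- the map
  set ψ : E → E := fun w => w + (q w / q x) • (y - x) with hψ
  have hψd : Differentiable ℂ ψ := by
    rw [hψ]
    apply Differentiable.fun_add (by fun_prop : Differentiable ℂ fun w : E => w)
    apply Differentiable.smul_const
    simp only [div_eq_mul_inv]
    exact (qq_diff g m S).mul_const _
  have hψx : ψ x = y := by
    simp only [hψ]
    rw [div_self hqxne, one_smul]; abel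
  have hψw : ∀ w ∈ Ω, ‖ψ w - w‖ ≤ s / 2 := by
    intro w hw
    simp only [hψ]
    rw [add_sub_cancel_left, norm_smul]
    calc ‖q w / q x‖ * ‖y - x‖ ≤ (‖q w‖ * 2 ^ N) * (2 * δ) := by
          gcongr
          exact hqinv w
      _ ≤ (Q * 2 ^ N) * (2 * δ) := by
          gcongr
          exact hqle w hw
      _ ≤ s / 2 := hδ1
  have hψp : ∀ b ∈ S, ∀ w ∈ Ω, ‖(ψ w - b) - (w - b)‖ ≤ ‖w - b‖ / 4 := by
    intro b hb w hw
    have e1 : (ψ w - b) - (w - b) = (q w / q x) • (y - x) := by
      simp only [hψ]; abel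
    rw [e1, norm_smul]
    calc ‖q w / q x‖ * ‖y - x‖ ≤ (‖q w‖ * 2 ^ N) * (2 * δ) := by
          gcongr
          exact hqinv w
      _ ≤ (Q * ‖w - b‖ * 2 ^ N) * (2 * δ) := by
          gcongr
          exact hqpole b hb w hw
      _ = ‖w - b‖ * (Q * 2 ^ N * (2 * δ)) := by ring
      _ ≤ ‖w - b‖ * (1 / 4) := by gcongr
      _ = ‖w - b‖ / 4 := by ring
  have hmaps : MapsTo ψ (thickening s K) Ω := by
    intro w hw
    apply hs2Ω
    have hwΩ := hOΩ hw
    rw [mem_thickening_iff] at hw ⊢
    obtain ⟨k, hk, hwk⟩ := hw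
    refine ⟨k, hk, ?_⟩
    have h1 := dist_triangle (ψ w) w k
    rw [dist_eq_norm (ψ w) w] at h1
    have h2 := hψw w hwΩ
    rw [hs] at *
    linarith
  -- the competitor
  apply iSup₂_le
  intro u hu
  obtain ⟨hupsh, hu0, hupole⟩ := hu
  set O := thickening s K with hO
  have hOo : IsOpen O := isOpen_thickening
  set v : E → EReal := fun w => if w ∈ O then max (u (ψ w) - ((η : ℝ) : EReal)) (W w) else W w
    with hv
  have hvmem : v ∈ greenFamily Ω (S : Set E) := by
    refine ⟨?_, ?_, ?_⟩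
    · apply IsPSH.of_local
      intro z hz
      by_cases hzO : z ∈ O
      · refine ⟨O, hOo, hzO, ?_⟩
        apply isPSH_congr (isPSH_max (hupsh.comp_sub hψd hmaps η) (hbar.1.mono hOΩ))
        intro w hw
        simp only [hv, if_pos hw]
      · have hzK : z ∉ K := fun h => hzO (self_subset_thickening hs0 K h)
        refine ⟨Ω \ K, hop.sdiff hKc.isClosed, ⟨hz, hzK⟩, ?_⟩
        apply isPSH_congr (hbar.1.mono sdiff_subset)
        rintro w ⟨hwΩ, hwK⟩
        simp only [hv]
        split_ifs with hwO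
        · apply max_eq_right
          have h1 : u (ψ w) < 0 := hu0 _ (hmaps hwO)
          have h2 : u (ψ w) - ((η : ℝ) : EReal) ≤ ((-η : ℝ) : EReal) := by
            rw [ereal_sub_le]
            simpa using h1.le
          refine h2.trans ?_
          have hw2 : 2 * r ≤ ‖w‖ := by
            by_contra hcon
            push Not at hcon
            apply hwK
            left; right
            rw [mem_closedBall, dist_zero_right]
            exact hcon.le
          refine le_trans ?_ (rho_le_barrier hw2)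
          rw [EReal.coe_le_coe_iff]
          have h3 : -(η / A) < ρ w := by
            by_contra hcon
            push Not at hcon
            exact hwK (Or.inl (Or.inl ⟨hwΩ, hcon⟩))
          have h4 : A * (-(η / A)) ≤ A * ρ w := by gcongr
          have h5 : A * (-(η / A)) = -η := by field_simp
          linarith
        · rfl
    · intro z hz
      simp only [hv]
      split_ifs with hzO
      · apply max_lt _ (hbar.2.1 z hz)
        have h1 : u (ψ z) < 0 := hu0 _ (hmaps hzO)
        have h2 : u (ψ z) - ((η : ℝ) : EReal) ≤ ((-η : ℝ) : EReal) := by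
          rw [ereal_sub_le]
          simpa using h1.le
        refine lt_of_le_of_lt h2 ?_
        rw [show (0 : EReal) = ((0 : ℝ) : EReal) from rfl, EReal.coe_lt_coe_iff]
        linarith
      · exact hbar.2.1 z hz
    · intro b hb
      have hb' : b ∈ S := hb
      obtain ⟨C1, hC1⟩ := hupole b hb
      obtain ⟨C2, hC2⟩ := hbar.2.2 b hb
      have hψb : ψ b = b := by
        have := hψp b hb' b (hSΩ b hb')
        rw [sub_self, norm_zero, zero_div] at this
        have h1 := norm_le_zero_iff.1 this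
        rw [sub_zero] at h1
        exact sub_eq_zero.1 h1
      have hbΩ0 : ∀ᶠ w in 𝓝 b, w ∈ Ω := hop.mem_nhds (hSΩ b hb')
      have hbΩ : ∀ᶠ w in 𝓝[≠] b, w ∈ Ω := hbΩ0.filter_mono nhdsWithin_le_nhds
      have hψt : Tendsto ψ (𝓝[≠] b) (𝓝[≠] b) := by
        apply tendsto_nhdsWithin_of_tendsto_nhds_of_eventually_within
        · have := hψd.continuous.tendsto b
          rw [hψb] at this
          exact this.mono_left nhdsWithin_le_nhds
        · filter_upwards [hbΩ, self_mem_nhdsWithin] with w hwΩ hwb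
          intro hcon
          have hcon' : ψ w = b := hcon
          have h1 := hψp b hb' w hwΩ
          rw [hcon', sub_self, zero_sub, norm_neg] at h1
          have h2 : 0 < ‖w - b‖ := norm_pos_iff.2 (sub_ne_zero.2 hwb)
          linarith
      refine ⟨max (C1 + Real.log (5 / 4)) C2, ?_⟩
      filter_upwards [hψt.eventually hC1, hC2, hbΩ, self_mem_nhdsWithin] with w h1 h2 hwΩ hwb
      have hwb0 : 0 < ‖w - b‖ := norm_pos_iff.2 (sub_ne_zero.2 hwb)
      have h3 : W w ≤ ((Real.log ‖w - b‖ + max (C1 + Real.log (5 / 4)) C2 : ℝ) : EReal) := by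
        refine h2.trans ?_
        rw [EReal.coe_le_coe_iff]
        have := le_max_right (C1 + Real.log (5 / 4)) C2
        linarith
      simp only [hv]
      split_ifs with hwO
      · apply max_le _ h3
        rw [ereal_sub_le]
        refine h1.trans ?_
        rw [EReal.coe_le_coe_iff]
        have h4 := hψp b hb' w hwΩ
        have h5 : ‖ψ w - b‖ ≤ 5 / 4 * ‖w - b‖ := by
          have := norm_sub_norm_le (ψ w - b) (w - b)
          linarith
        have h6 : 0 < ‖ψ w - b‖ := by
          have h7 := norm_sub_norm_le (w - b) (ψ w - b)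
          have h8 := norm_sub_rev (w - b) (ψ w - b)
          linarith
        have h7 := Real.log_le_log h6 h5
        rw [Real.log_mul (by norm_num) hwb0.ne'] at h7
        have := le_max_left (C1 + Real.log (5 / 4)) C2
        linarith
      · exact h3
  have hfin : v x ≤ green Ω S x := le_iSup₂ (f := fun u _ => u x) v hvmem
  have hxO : x ∈ O := hballO (by rw [mem_ball, dist_eq_norm]; exact hx)
  have h1 : u y - ((η : ℝ) : EReal) ≤ v x := by
    simp only [hv, if_pos hxO, hψx]
    exact le_max_left _ _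
  have h2 := h1.trans hfin
  rwa [EReal.sub_le_iff_le_add (Or.inl (EReal.coe_ne_bot η)) (Or.inl (EReal.coe_ne_top η))] at h2

end Q72.Green
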