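import Mathlib

/-!
# Local equicontinuity and local `L¹` convergence give locally uniform convergence
-/

set_option autoImplicit false

open Metric Set Filter Topology MeasureTheory

namespace Q72.Green

theorem loc_unif {E : Type*} [NormedAddCommGroup E] [ProperSpace E] [MeasurableSpace E]
    [BorelSpace E] (μ : Measure E) [IsLocallyFiniteMeasure μ] [μ.IsOpenPosMeasure]
    {l : Filter ℝ} [NeBot l] {U : Set E} (hU : IsOpen U) (f : ℝ → E → ℝ) (g : E → ℝ)
    (H1 : ∀ x0 ∈ U, ∀ η > 0, ∃ δ > 0, ball x0 δ ⊆ U ∧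
      ∀ᶠ ε in l, ∀ x ∈ ball x0 δ, ∀ y ∈ ball x0 δ, f ε y ≤ f ε x + η)
    (H2 : ∀ K ⊆ U, IsCompact K → (∀ᶠ ε in l, IntegrableOn (f ε) K μ) ∧ IntegrableOn g K μ ∧
      Tendsto (fun ε => ∫ x in K, |f ε x - g x| ∂μ) l (𝓝 0)) :
    ∃ g' : E → ℝ, ContinuousOn g' U ∧ (∀ K ⊆ U, IsCompact K → TendstoUniformlyOn f g' l K) ∧
      ∀ᵐ x ∂(μ.restrict U), g' x = g x := by
  have hA : ∀ x0 ∈ U, ∀ η > 0, ∃ δ > 0, ball x0 δ ⊆ U ∧ ∃ V ∈ l,
      (∀ ε ∈ V, ∀ ε' ∈ V, ∀ x ∈ ball x0 δ, |f ε x - f ε' x| ≤ 3 * η) ∧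
      ∀ ε ∈ V, ∀ x ∈ ball x0 δ, ∀ y ∈ ball x0 δ, |f ε x - f ε y| ≤ η := by
    intro x0 hx0 η hη
    obtain ⟨δ, hδ, hsub, hev⟩ := H1 x0 hx0 η hη
    set B := closedBall x0 (δ / 2) with hB
    have hBs : B ⊆ ball x0 δ := closedBall_subset_ball (by linarith)
    have hBc : IsCompact B := isCompact_closedBall _ _
    obtain ⟨h1, h2, h3⟩ := H2 B (hBs.trans hsub) hBc
    have hκ : 0 < μ.real B := by
      rw [measureReal_def]
      apply ENNReal.toReal_pos
      · exact (measure_closedBall_pos μ x0 (by linarith)).ne'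
      · exact hBc.measure_lt_top.ne
    set κ := μ.real B with hκdef
    have h4 : ∀ᶠ ε in l, ∫ x in B, |f ε x - g x| ∂μ < η * κ / 2 :=
      h3.eventually (gt_mem_nhds (by positivity))
    refine ⟨δ, hδ, hsub, _, (hev.and (h1.and h4)), ?_, ?_⟩
    · rintro ε ⟨ha, hb, hc⟩ ε' ⟨ha', hb', hc'⟩ x hx
      have hosc : ∀ y ∈ B, |f ε x - f ε y| ≤ η := fun y hy => by
        rw [abs_le]
        constructor
        · have := ha x hx y (hBs hy); linarith
        · have := ha y (hBs hy) x hx; linarith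
      have hosc' : ∀ y ∈ B, |f ε' x - f ε' y| ≤ η := fun y hy => by
        rw [abs_le]
        constructor
        · have := ha' x hx y (hBs hy); linarith
        · have := ha' y (hBs hy) x hx; linarith
      have hle : ∀ y ∈ B, |f ε x - f ε' x| ≤ 2 * η + |f ε y - g y| + |f ε' y - g y| := by
        intro y hy
        have e : f ε x - f ε' x = (f ε x - f ε y) - (f ε' x - f ε' y) + (f ε y - g y) -
          (f ε' y - g y) := by ring
        rw [e]
        have t1 := abs_sub ((f ε x - f ε y) - (f ε' x - f ε' y) + (f ε y - g y)) (f ε' y - g y)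
        have t2 := abs_add_le ((f ε x - f ε y) - (f ε' x - f ε' y)) (f ε y - g y)
        have t3 := abs_sub (f ε x - f ε y) (f ε' x - f ε' y)
        linarith [hosc y hy, hosc' y hy]
      have i1 : IntegrableOn (fun y => |f ε y - g y|) B μ := (hb.sub h2).abs
      have i2 : IntegrableOn (fun y => |f ε' y - g y|) B μ := (hb'.sub h2).abs
      have ic : ∀ c : ℝ, IntegrableOn (fun _ : E => c) B μ := fun c =>
        integrableOn_const hBc.measure_lt_top.ne
      have h5 := setIntegral_mono_on (ic |f ε x - f ε' x|) (((ic (2 * η)).add i1).add i2)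
        measurableSet_closedBall hle
      have h6 : ∫ y in B, (2 * η + |f ε y - g y| + |f ε' y - g y|) ∂μ =
          2 * η * κ + (∫ y in B, |f ε y - g y| ∂μ) + ∫ y in B, |f ε' y - g y| ∂μ := by
        have i12 : IntegrableOn (fun y => 2 * η + |f ε y - g y|) B μ := (ic (2 * η)).add i1
        rw [integral_add i12 i2, integral_add (ic (2 * η)) i1,
          setIntegral_const, smul_eq_mul]
        ring
      rw [setIntegral_const, smul_eq_mul] at h5
      have h7 : κ * |f ε x - f ε' x| ≤ 2 * η * κ + (∫ y in B, |f ε y - g y| ∂μ) +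
          ∫ y in B, |f ε' y - g y| ∂μ := by
        rw [← h6]; exact h5
      have h8 : κ * |f ε x - f ε' x| ≤ κ * (3 * η) := by nlinarith
      exact le_of_mul_le_mul_left h8 hκ
    · rintro ε ⟨ha, _, _⟩ x hx y hy
      rw [abs_le]
      constructor
      · have := ha x hx y hy; linarith
      · have := ha y hy x hx; linarith
  -- limits
  have hlim : ∀ x, ∃ y, x ∈ U → Tendsto (fun ε => f ε x) l (𝓝 y) := by
    intro x
    by_cases hx : x ∈ U
    · have hc : Cauchy (l.map fun ε => f ε x) := by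
        rw [Metric.cauchy_iff]
        refine ⟨inferInstance, fun κ hκ => ?_⟩
        obtain ⟨δ, hδ, _, V, hV, h1, _⟩ := hA x hx (κ / 4) (by positivity)
        refine ⟨(fun ε => f ε x) '' V, image_mem_map hV, ?_⟩
        rintro _ ⟨ε, hε, rfl⟩ _ ⟨ε', hε', rfl⟩
        rw [Real.dist_eq]
        have := h1 ε hε ε' hε' x (mem_ball_self hδ)
        linarith
      obtain ⟨y, hy⟩ := CompleteSpace.complete hc
      exact ⟨y, fun _ => hy⟩
    · exact ⟨0, fun h => absurd h hx⟩
  choose g' hg' using hlim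
  have hC : ∀ x0 ∈ U, ∀ η > 0, ∃ δ > 0, ball x0 δ ⊆ U ∧ (∃ V ∈ l,
      ∀ ε ∈ V, ∀ x ∈ ball x0 δ, |f ε x - g' x| ≤ 3 * η) ∧
      ∀ x ∈ ball x0 δ, ∀ y ∈ ball x0 δ, |g' x - g' y| ≤ η := by
    intro x0 hx0 η hη
    obtain ⟨δ, hδ, hsub, V, hV, h1, h2⟩ := hA x0 hx0 η hη
    refine ⟨δ, hδ, hsub, ⟨V, hV, fun ε hε x hx => ?_⟩, fun x hx y hy => ?_⟩
    · have ht : Tendsto (fun ε' => |f ε x - f ε' x|) l (𝓝 |f ε x - g' x|) :=
        (tendsto_const_nhds.sub (hg' x (hsub hx))).abs
      exact le_of_tendsto ht (mem_of_superset hV fun ε' hε' => h1 ε hε ε' hε' x hx)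
    · have ht : Tendsto (fun ε' => |f ε' x - f ε' y|) l (𝓝 |g' x - g' y|) :=
        ((hg' x (hsub hx)).sub (hg' y (hsub hy))).abs
      exact le_of_tendsto ht (mem_of_superset hV fun ε' hε' => h2 ε' hε' x hx y hy)
  have hcont : ContinuousOn g' U := by
    intro x hx
    apply ContinuousAt.continuousWithinAt
    rw [Metric.continuousAt_iff]
    intro κ hκ
    obtain ⟨δ, hδ, _, _, h2⟩ := hC x hx (κ / 2) (by positivity)
    refine ⟨δ, hδ, fun y hy => ?_⟩
    rw [Real.dist_eq]
    have := h2 y hy x (mem_ball_self hδ)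
    linarith
  have hunif : TendstoLocallyUniformlyOn f g' l U := by
    rw [Metric.tendstoLocallyUniformlyOn_iff]
    intro κ hκ x hx
    obtain ⟨δ, hδ, _, ⟨V, hV, h1⟩, _⟩ := hC x hx (κ / 4) (by positivity)
    refine ⟨ball x δ, mem_nhdsWithin_of_mem_nhds (ball_mem_nhds x hδ), ?_⟩
    filter_upwards [hV] with ε hε y hy
    rw [dist_comm, Real.dist_eq]
    have := h1 ε hε y hy
    linarith
  have hunifK : ∀ K ⊆ U, IsCompact K → TendstoUniformlyOn f g' l K :=
    (tendstoLocallyUniformlyOn_iff_forall_isCompact hU).1 hunif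
  refine ⟨g', hcont, hunifK, ?_⟩
  -- almost everywhere equality
  rw [ae_restrict_iff' hU.measurableSet, ae_iff]
  apply measure_null_of_locally_null
  intro x hx
  have hxU : x ∈ U := by
    by_contra h
    exact hx fun h' => absurd h' h
  obtain ⟨δ, hδ, hsub⟩ := Metric.isOpen_iff.1 hU x hxU
  set B := closedBall x (δ / 2) with hB
  have hBU : B ⊆ U := (closedBall_subset_ball (by linarith)).trans hsub
  have hBc : IsCompact B := isCompact_closedBall _ _
  obtain ⟨h1, h2, h3⟩ := H2 B hBU hBc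
  have hg'i : IntegrableOn g' B μ := (hcont.mono hBU).integrableOn_compact hBc
  have hzero : ∫ y in B, |g' y - g y| ∂μ = 0 := by
    apply le_antisymm _ (integral_nonneg fun _ => abs_nonneg _)
    apply le_of_forall_pos_le_add
    intro κ hκ
    set M := μ.real B with hM
    have hM0 : 0 ≤ M := measureReal_nonneg
    have hu := (Metric.tendstoUniformlyOn_iff.1 (hunifK B hBU hBc)) (κ / (2 * (M + 1)))
      (by positivity)
    have h4 : ∀ᶠ ε in l, ∫ x in B, |f ε x - g x| ∂μ < κ / 2 :=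
      h3.eventually (gt_mem_nhds (by positivity))
    obtain ⟨ε, ⟨hε1, hε2⟩, hε3⟩ := ((hu.and h1).and h4).exists
    have ic : IntegrableOn (fun _ : E => κ / (2 * (M + 1))) B μ :=
      integrableOn_const hBc.measure_lt_top.ne
    have i1 : IntegrableOn (fun y => |f ε y - g y|) B μ := (hε2.sub h2).abs
    have h5 := setIntegral_mono_on (hg'i.sub h2).abs (ic.add i1) measurableSet_closedBall
      (fun y hy => by
        have h6 := hε1 y hy
        rw [Real.dist_eq] at h6
        have e : g' y - g y = (g' y - f ε y) + (f ε y - g y) := by ring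
        show |g' y - g y| ≤ κ / (2 * (M + 1)) + |f ε y - g y|
        rw [e]
        have := abs_add_le (g' y - f ε y) (f ε y - g y)
        linarith)
    have h6 : ∫ y in B, (κ / (2 * (M + 1)) + |f ε y - g y|) ∂μ =
        M * (κ / (2 * (M + 1))) + ∫ y in B, |f ε y - g y| ∂μ := by
      rw [integral_add ic i1, setIntegral_const, smul_eq_mul]
    have h7 : M * (κ / (2 * (M + 1))) ≤ κ / 2 := by
      rw [mul_div_assoc', div_le_div_iff₀ (by positivity) two_pos]
      nlinarith
    have h8 : ∫ y in B, |g' y - g y| ∂μ ≤ M * (κ / (2 * (M + 1))) +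
        ∫ y in B, |f ε y - g y| ∂μ := by
      rw [← h6]; exact h5
    linarith
  have hae : (fun y => |g' y - g y|) =ᵐ[μ.restrict B] 0 := by
    have habs : IntegrableOn (fun y => |g' y - g y|) B μ := (hg'i.sub h2).abs
    exact (setIntegral_eq_zero_iff_of_nonneg_ae (Eventually.of_forall fun _ => abs_nonneg _)
      habs).1 hzero
  have hae2 : ∀ᵐ y ∂μ, y ∈ B → |g' y - g y| = 0 := by
    rw [Filter.EventuallyEq, ae_restrict_iff' measurableSet_closedBall] at hae
    exact hae
  refine ⟨B ∩ {y | ¬ (y ∈ U → g' y = g y)}, inter_mem (mem_nhdsWithin_of_mem_nhds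
    (closedBall_mem_nhds x (by linarith))) self_mem_nhdsWithin, ?_⟩
  rw [ae_iff] at hae2
  apply measure_mono_null _ hae2
  rintro y ⟨hyB, hy⟩ hcon
  apply hy
  intro _
  have := hcon hyB
  rw [abs_eq_zero] at this
  linarith

end Q72.Green
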